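import Pool.Agent.W102.TD.Defs

/-! TD-BENT: the function of Tu and Deng is bent. -/

set_option autoImplicit false

namespace Pool.Agent.W479.TD

open Finset Pool.Agent.W102.TD

/-- the sign character -/
def chi (z : ZMod 2) : ℤ := (-1 : ℤ) ^ z.val

theorem chi_add : ∀ a b : ZMod 2, chi (a + b) = chi a * chi b := by
  unfold chi; decide

theorem chi_zero : chi 0 = 1 := by decide
theorem chi_one : chi 1 = -1 := by decide

theorem sum_chi {A : Type} [AddCommGroup A] [Fintype A] (u : A →+ ZMod 2) (hu : u ≠ 0) :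
    ∑ x, chi (u x) = 0 := by
  have h1 : ∃ x0, u x0 ≠ 0 := by
    by_contra hcon
    push Not at hcon
    exact hu (AddMonoidHom.ext hcon)
  obtain ⟨x0, hx0⟩ := h1
  have h2 : u x0 = 1 := by
    revert hx0; generalize u x0 = z; revert z; decide
  have h3 : ∑ x, chi (u (x + x0)) = ∑ x, chi (u x) :=
    Fintype.sum_equiv (Equiv.addRight x0) _ _ (fun x => rfl)
  have h4 : ∑ x, chi (u (x + x0)) = - ∑ x, chi (u x) := by
    rw [← Finset.sum_neg_distrib]
    refine Finset.sum_congr rfl fun x _ => ?_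
    rw [map_add, chi_add, h2, chi_one]; ring
  linarith

theorem sum_chi_zero {A : Type} [AddCommGroup A] [Fintype A] (u : A →+ ZMod 2) (hu : u = 0) :
    ∑ x, chi (u x) = Fintype.card A := by
  subst hu
  simp [chi_zero]

section
variable {F : Type} [Field F]

/-- the restriction of `l` to the line `x = γ y` -/
def ug (l : F × F →+ ZMod 2) (γ : F) : F →+ ZMod 2 where
  toFun y := l (γ * y, y)
  map_zero' := by rw [mul_zero]; exact map_zero l
  map_add' y z := by rw [← map_add]; congr 1; ext <;> simp [mul_add]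

theorem ug_apply (l : F × F →+ ZMod 2) (γ y : F) : ug l γ y = l (γ * y, y) := rfl

theorem ug_unique {l : F × F →+ ZMod 2} (hl : l ≠ 0) {γ γ' : F} (h : ug l γ = 0)
    (h' : ug l γ' = 0) : γ = γ' := by
  by_contra hne
  apply hl
  ext ⟨x, z⟩
  have h1 : γ - γ' ≠ 0 := sub_ne_zero.2 hne
  have h2 : ((x, z) : F × F) = (γ * ((x - γ' * z) / (γ - γ')), (x - γ' * z) / (γ - γ')) +
      (γ' * (z - (x - γ' * z) / (γ - γ')), z - (x - γ' * z) / (γ - γ')) := by
    ext
    · simp only [Prod.mk_add_mk]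
      field_simp
      ring
    · simp
  rw [h2, map_add]
  have h3 := DFunLike.congr_fun h ((x - γ' * z) / (γ - γ'))
  have h4 := DFunLike.congr_fun h' (z - (x - γ' * z) / (γ - γ'))
  rw [ug_apply] at h3 h4
  rw [h3, h4]; simp

open Classical in
/-- the set of slopes -/
noncomputable def GG (m : ℕ) (α : F) : Finset F := (Finset.range (2 ^ (m - 1))).image fun k => α ^ k

theorem card_GG {m : ℕ} (hm : 1 ≤ m) {α : F} (hα : orderOf α = 2 ^ m - 1) :
    (GG m α).card = 2 ^ (m - 1) := by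
  classical
  unfold GG
  rw [Finset.card_image_of_injOn, Finset.card_range]
  intro i hi j hj hij
  have h1 : 2 ^ m = 2 * 2 ^ (m - 1) := by rw [← pow_succ']; congr 1; omega
  have h2 : 0 < 2 ^ (m - 1) := by positivity
  have h3 : ∀ i, i ∈ Finset.range (2 ^ (m - 1)) → i < orderOf α := by
    intro i hi
    have := Finset.mem_range.1 hi
    omega
  exact pow_injOn_Iio_orderOf (h3 i hi) (h3 j hj) hij

theorem f0_eq {m : ℕ} {α : F} (x y : F) [Decidable (y ≠ 0 ∧ ∃ γ ∈ GG m α, x = γ * y)] :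
    f0 m α x y = if y ≠ 0 ∧ ∃ γ ∈ GG m α, x = γ * y then 1 else 0 := by
  classical
  unfold f0
  have : (y ≠ 0 ∧ ∃ k < 2 ^ (m - 1), x = α ^ k * y) ↔ (y ≠ 0 ∧ ∃ γ ∈ GG m α, x = γ * y) := by
    unfold GG
    simp only [Finset.mem_image, Finset.mem_range]
    constructor
    · rintro ⟨hy, k, hk, h⟩; exact ⟨hy, _, ⟨k, hk, rfl⟩, h⟩
    · rintro ⟨hy, _, ⟨k, hk, rfl⟩, h⟩; exact ⟨hy, k, hk, h⟩
  by_cases h : y ≠ 0 ∧ ∃ γ ∈ GG m α, x = γ * y
  · rw [if_pos (this.2 h), if_pos h]
  · rw [if_neg (fun h' => h (this.1 h')), if_neg h]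

variable [Fintype F]

theorem line_sum [DecidableEq F] {m : ℕ} {α : F} (l : F × F →+ ZMod 2) (y : F) :
    ∑ x : F, chi (f0 m α x y + l (x, y)) = ∑ x : F, chi (l (x, y)) -
      2 * (if y = 0 then 0 else ∑ γ ∈ GG m α, chi (ug l γ y)) := by
  classical
  by_cases hy : y = 0
  · rw [if_pos hy, mul_zero, sub_zero]
    refine Finset.sum_congr rfl fun x _ => ?_
    rw [f0_eq, if_neg (fun h => h.1 hy), zero_add]
  rw [if_neg hy]
  have h1 : ∀ x : F, chi (f0 m α x y + l (x, y)) = chi (l (x, y)) -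
      2 * (if x ∈ (GG m α).image (fun γ => γ * y) then chi (l (x, y)) else 0) := by
    intro x
    rw [f0_eq, chi_add]
    by_cases h : x ∈ (GG m α).image (fun γ => γ * y)
    · rw [if_pos h, if_pos, chi_one]
      · ring
      · obtain ⟨γ, hγ, h⟩ := Finset.mem_image.1 h
        exact ⟨hy, γ, hγ, h.symm⟩
    · rw [if_neg h, if_neg, chi_zero]
      · ring
      · rintro ⟨-, γ, hγ, h'⟩
        exact h (Finset.mem_image.2 ⟨γ, hγ, h'.symm⟩)
  rw [Finset.sum_congr rfl fun x _ => h1 x, Finset.sum_sub_distrib, ← Finset.mul_sum]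
  congr 2
  rw [← Finset.sum_filter, Finset.filter_mem_eq_inter, Finset.univ_inter,
    Finset.sum_image (fun a _ b _ h => mul_right_cancel₀ hy h)]
  rfl

theorem total {m : ℕ} (hm : 1 ≤ m) {α : F} (hα : orderOf α = 2 ^ m - 1) (l : F × F →+ ZMod 2) :
    ∑ p : F × F, chi (f0 m α p.1 p.2 + l p) = ∑ p : F × F, chi (l p) -
      2 * (∑ γ ∈ GG m α, ∑ y, chi (ug l γ y) - 2 ^ (m - 1)) := by
  classical
  rw [Fintype.sum_prod_type_right, Fintype.sum_prod_type_right]
  simp only []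
  rw [Finset.sum_congr rfl fun y _ => line_sum l y, Finset.sum_sub_distrib, ← Finset.mul_sum]
  congr 2
  have h1 : ∀ y : F, (if y = 0 then 0 else ∑ γ ∈ GG m α, chi (ug l γ y)) =
      ∑ γ ∈ GG m α, chi (ug l γ y) - if y = 0 then 2 ^ (m - 1) else 0 := by
    intro y
    by_cases hy : y = 0
    · rw [if_pos hy, if_pos hy, hy]
      simp only [map_zero, chi_zero, Finset.sum_const, card_GG hm hα]
      simp
    · rw [if_neg hy, if_neg hy, sub_zero]
  rw [Finset.sum_congr rfl fun y _ => h1 y, Finset.sum_sub_distrib, Finset.sum_comm]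
  congr 1
  simp

end

theorem BENT : Pool.Agent.W102.TD.BENT := by
  intro F _ _ m hm hcard α hα0 hα l
  classical
  change (∑ p : F × F, chi (f0 m α p.1 p.2 + l p)) ^ 2 = 2 ^ (2 * m)
  rw [total hm hα l]
  have h2m : (2 : ℤ) ^ m = 2 * 2 ^ (m - 1) := by
    rw [← pow_succ']; congr 1; omega
  by_cases hl : l = 0
  · have h1 : ∀ γ, ug l γ = 0 := by
      intro γ; subst hl; ext y; rfl
    rw [sum_chi_zero l hl, Finset.sum_congr rfl fun γ _ => sum_chi_zero (ug l γ) (h1 γ),
      Finset.sum_const, card_GG hm hα, Fintype.card_prod, hcard]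
    push_cast
    have h3 : (2 : ℤ) ^ (2 * m) = (2 ^ m) ^ 2 := by rw [← pow_mul, mul_comm]
    rw [h3, h2m]
    simp only [nsmul_eq_mul]
    push_cast
    ring
  · rw [sum_chi l hl]
    have h3 : (2 : ℤ) ^ (2 * m) = (2 ^ m) ^ 2 := by rw [← pow_mul, mul_comm]
    have h4 : ∑ γ ∈ GG m α, ∑ y, chi (ug l γ y) =
        ∑ γ ∈ GG m α, if ug l γ = 0 then (2 : ℤ) ^ m else 0 := by
      refine Finset.sum_congr rfl fun γ _ => ?_
      by_cases h : ug l γ = 0
      · rw [if_pos h, sum_chi_zero _ h, hcard]; push_cast; rfl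
      · rw [if_neg h, sum_chi _ h]
    rw [h4, h3]
    by_cases hex : ∃ γ ∈ GG m α, ug l γ = 0
    · obtain ⟨γ, hγ, h⟩ := hex
      rw [Finset.sum_eq_single γ, if_pos h, h2m]
      · ring
      · intro γ' _ hne
        rw [if_neg (fun h' => hne (ug_unique hl h' h))]
      · intro h'; exact absurd hγ h'
    · push Not at hex
      rw [Finset.sum_eq_zero (fun γ hγ => if_neg (hex γ hγ)), h2m]
      ring

end Pool.Agent.W479.TD
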